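import Pool.Agent.H88.CM.AREG

/-! Closing lemma on compact manifolds: the bump diffeomorphisms of `M` (row `BMD`). -/

open Set Function Topology Metric Filter
open scoped Manifold

namespace Pool.Agent.H12.CM

open Pool.Agent.H88.CL Pool.Agent.H88.CM

/-- `v + u v` stays in the target -/
theorem bump_mem {d : ℕ} {M : Type} [TopologicalSpace M] {φ : Ch d M} {K : Set (E d)}
    {u u' : E d → E d} (hK : K ⊆ φ.target) (hs : ∀ v, u v ≠ 0 → v ∈ K)
    (h1 : ∀ v, (v + u v) + u' (v + u v) = v) {v : E d} (hv : v ∈ φ.target) :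
    v + u v ∈ φ.target := by
  by_cases hu : u v = 0
  · rw [hu, add_zero]; exact hv
  · by_cases hw : u (v + u v) = 0
    · -- then `H (H v) = H v`, so `H v = v`
      exfalso
      have e1 := h1 (v + u v)
      rw [hw, add_zero] at e1
      have e2 := h1 v
      rw [e1] at e2
      exact hu (by simpa using e2)
    · exact hK (hs _ hw)

theorem bmp_src {d : ℕ} {M : Type} [TopologicalSpace M] {φ : Ch d M} {K : Set (E d)}
    {u u' : E d → E d} (hK : K ⊆ φ.target) (hs : ∀ v, u v ≠ 0 → v ∈ K)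
    (h1 : ∀ v, (v + u v) + u' (v + u v) = v) {y : M} (hy : y ∈ φ.source) :
    bmp φ u y ∈ φ.source ∧ φ (bmp φ u y) = φ y + u (φ y) := by
  have h := bump_mem hK hs h1 (φ.map_source hy)
  rw [bmp_of_mem hy]
  exact ⟨φ.map_target h, φ.right_inv h⟩

theorem bmp_inv {d : ℕ} {M : Type} [TopologicalSpace M] {φ : Ch d M} {K : Set (E d)}
    {u u' : E d → E d} (hK : K ⊆ φ.target) (hs : ∀ v, u v ≠ 0 → v ∈ K)
    (h1 : ∀ v, (v + u v) + u' (v + u v) = v) (y : M) : bmp φ u' (bmp φ u y) = y := by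
  by_cases hy : y ∈ φ.source
  · obtain ⟨h2, h3⟩ := bmp_src hK hs h1 hy
    rw [bmp_of_mem h2, h3, h1, φ.left_inv hy]
  · rw [bmp_of_notMem hy, bmp_of_notMem hy]

theorem bmp_eq {d : ℕ} {M : Type} [TopologicalSpace M] {φ : Ch d M} {K : Set (E d)}
    {u : E d → E d} (hs : ∀ v, u v ≠ 0 → v ∈ K) {y : M} (hy : y ∉ φ.symm '' K) :
    bmp φ u y = y := by
  by_cases h : y ∈ φ.source
  · rw [bmp_of_mem h]
    have h0 : u (φ y) = 0 := by
      by_contra hne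
      exact hy ⟨φ y, hs _ hne, φ.left_inv h⟩
    rw [h0, add_zero, φ.left_inv h]
  · exact bmp_of_notMem h

theorem bmp_c2 {d : ℕ} {M : Type} [TopologicalSpace M] [T2Space M] [ChartedSpace (E d) M]
    [IsManifold 𝓘(ℝ, E d) 2 M] {φ : Ch d M} {K : Set (E d)} {u u' : E d → E d}
    (hφ : φ ∈ MA d M) (hKc : IsCompact K) (hK : K ⊆ φ.target) (hs : ∀ v, u v ≠ 0 → v ∈ K)
    (hu : ContDiff ℝ 2 u) (h1 : ∀ v, (v + u v) + u' (v + u v) = v) :
    ContMDiff 𝓘(ℝ, E d) 𝓘(ℝ, E d) 2 (bmp φ u) := by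
  intro y
  by_cases hy : y ∈ φ.source
  · have hH : ContMDiff 𝓘(ℝ, E d) 𝓘(ℝ, E d) 2 (fun v : E d => v + u v) :=
      (contDiff_id.add hu).contMDiff
    have c1 : ContMDiffAt 𝓘(ℝ, E d) 𝓘(ℝ, E d) 2 φ y := contMDiffAt_of_mem_maximalAtlas hφ hy
    have ht := bump_mem hK hs h1 (φ.map_source hy)
    have c2 : ContMDiffAt 𝓘(ℝ, E d) 𝓘(ℝ, E d) 2 φ.symm (φ y + u (φ y)) :=
      contMDiffAt_symm_of_mem_maximalAtlas hφ ht
    have c3 : ContMDiffAt 𝓘(ℝ, E d) 𝓘(ℝ, E d) 2 ((fun v : E d => v + u v) ∘ φ) y :=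
      ContMDiffAt.comp (g := fun v : E d => v + u v) y (hH (φ y)) c1
    have c4 : ContMDiffAt 𝓘(ℝ, E d) 𝓘(ℝ, E d) 2 (φ.symm ∘ ((fun v : E d => v + u v) ∘ φ)) y :=
      ContMDiffAt.comp (g := φ.symm) y c2 c3
    refine c4.congr_of_eventuallyEq ?_
    filter_upwards [φ.open_source.mem_nhds hy] with z hz
    exact bmp_of_mem hz
  · have hcl : IsClosed (φ.symm '' K) :=
      (hKc.image_of_continuousOn (φ.continuousOn_symm.mono hK)).isClosed
    have hy' : y ∉ φ.symm '' K := by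
      rintro ⟨v, hv, rfl⟩
      exact hy (φ.map_target (hK hv))
    have c4 : ContMDiffAt 𝓘(ℝ, E d) 𝓘(ℝ, E d) 2 (fun z : M => z) y := contMDiffAt_id
    refine c4.congr_of_eventuallyEq ?_
    filter_upwards [hcl.isOpen_compl.mem_nhds hy'] with z hz
    exact bmp_eq hs hz

theorem pf_BMD : T_BMD := by
  intro d M _ _ _ _ φ K σ β γ σ' β' γ' u u' hφ hKc hK hu hu' h1 h2
  refine ⟨⟨bmp_c2 hφ hKc hK hu.sup hu.c2 h1, bmp_c2 hφ hKc hK hu'.sup hu'.c2 h2,
    bmp_inv hK hu.sup h1, bmp_inv hK hu'.sup h2⟩, fun y hy => bmp_src hK hu.sup h1 hy, ?_⟩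
  intro y hy
  have hs : y ∈ φ.source := by
    by_contra h
    exact hy (bmp_of_notMem h)
  refine ⟨hs, fun h0 => hy ?_⟩
  rw [bmp_of_mem hs, h0, add_zero, φ.left_inv hs]

end Pool.Agent.H12.CM
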